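import Pool.Agent.Run7.h294.H5

set_option autoImplicit false

/-!
# Almost all very short intervals contain prime-free intervals of record size

Let `f(X) = log X (log₂ X)² log₄ X / (log₃ X)²`, the size of the largest gaps between primes known to occur up to `X`
(starting library, helper256 and team), and `g(X) = log X log₂ X log₄ X / log₃ X`. For every `A` there is a `c > 0`
such that for all large `X` and all `H` with `log X log₂ X ≤ H ≤ c f(X)`: for all but at most `X / (log X) ^ A` of
the integers `n ≤ X` the interval `[n, n + exp ((log X) ^ (1 - c g(X) / H))]` contains an integer `t` such that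
`[t, t + H]` is free of primes.

For `H = c f(X)` the length of the interval is `exp (log X / log₂ X) = X ^ (1 / log log X)`; for
`H = K log X log₂ X` it is `exp ((log X) ^ (1 - (c / K) log₄ X / log₃ X))`.

Method. Classes modulo the primes up to `y = (log X) ^ (1 - κ)`, `κ` about `g(X) / H`, are chosen by the method of
Rankin such that only `c log X` points of the window survive. In the chosen class modulo `W`, the product of these
primes, the windows at the multiples of `W` are covered by larger primes for all but `X / (W (log X) ^ A)` integers of
the class, by the second moment of truncated square weights of the record sieve (`Pool.Agent.H256R2.SC`), with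
sieving primes above `(log X) ^ D`; every `n` is at distance at most `W` from the class.
-/

namespace Pool.Agent.Results.MP_3bc45c_nt.AlmostAllShortIntervals

/-- The record scale `f(x) = log x (log₂ x)² log₄ x / (log₃ x)²` (iterated natural logarithms). -/
noncomputable def f (x : ℝ) : ℝ :=
  Real.log x * (Real.log (Real.log x)) ^ 2 * Real.log (Real.log (Real.log (Real.log x))) /
    (Real.log (Real.log (Real.log x))) ^ 2

/-- `g(x) = log x log₂ x log₄ x / log₃ x`. -/
noncomputable def g (x : ℝ) : ℝ :=
  Real.log x * Real.log (Real.log x) * Real.log (Real.log (Real.log (Real.log x))) /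
    Real.log (Real.log (Real.log x))

/-- The length of the intervals. -/
noncomputable def Z (c x H : ℝ) : ℝ := Real.exp (Real.log x ^ (1 - c * g x / H))

/-- **For almost all `n` the interval `[n, n + Z]` contains a prime-free interval of length `H`.** -/
theorem result : ∀ A : ℕ, ∃ c : ℝ, 0 < c ∧ ∃ X₀ : ℕ, ∀ X : ℕ, X₀ ≤ X →
    ∀ H : ℝ, Real.log X * Real.log (Real.log X) ≤ H → H ≤ c * f X →
      ({n : ℕ | n ≤ X ∧ ∀ t : ℕ, n ≤ t → (t : ℝ) ≤ n + Z c X H →
        ∃ p : ℕ, p.Prime ∧ t ≤ p ∧ (p : ℝ) ≤ t + H}.ncard : ℝ) ≤ X / (Real.log X) ^ A := by
  intro A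
  obtain ⟨c, hc, X₀, h⟩ := Run7.h294.H.main_c A
  refine ⟨c / 2, by positivity, max X₀ 3, fun X hX H h1 h2 => ?_⟩
  have hX0 : X₀ ≤ X := (le_max_left _ _).trans hX
  by_cases hf : 0 ≤ f X
  · have h3 := h X hX0 H h1 (by
      refine h2.trans ?_
      have : c / 2 * f X ≤ c * f X := mul_le_mul_of_nonneg_right (by linarith) hf
      exact this)
    have e : c / 2 * g X / H = c / 2 * (Real.log X * Real.log (Real.log X) *
        Real.log (Real.log (Real.log (Real.log X))) /
          (H * Real.log (Real.log (Real.log X)))) := by
      unfold g
      rw [mul_div_assoc, div_div, mul_comm H]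
    unfold Z
    rw [e]
    exact h3
  · exfalso
    push Not at hf
    have h3 : (3:ℝ) ≤ X := by exact_mod_cast (le_max_right _ _).trans hX
    have h4 : 1 ≤ Real.log X := by
      rw [Real.le_log_iff_exp_le (by linarith)]
      have := Real.exp_one_lt_d9
      linarith
    have h5 : 0 ≤ Real.log X * Real.log (Real.log X) :=
      mul_nonneg (by linarith) (Real.log_nonneg h4)
    have h6 : c / 2 * f X < 0 := mul_neg_of_pos_of_neg (by positivity) hf
    linarith

end Pool.Agent.Results.MP_3bc45c_nt.AlmostAllShortIntervals
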