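import Pool.Agent.Run7.h931.PS.All

/-!
# The runs of composites which follow primes, for perturbed intervals

Cramér's conjecture says that the longest run of composites `p + 1, p + 2, ...` following a prime `p ≤ N` has the order `log^2 N`.
Here these integers are replaced by `p + s 0, p + s 1, ...`, where `s j` is congruent to `j` modulo `M` (the product
of the primes `≤ w`, or any multiple with the same prime divisors), and otherwise runs through a window of its own. For almost all
choices of the perturbed interval `s 0, s 1, ...` the theorem gives the number of PRIMES `p ≤ N` in a residue class modulo `M` which are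
followed by at least `k` composites, for all `k` at once: `N^(1 - k / log^2 N + o(1))` for `k < log^2 N`, and none for
`k > (1 + o(1)) log^2 N`. So the longest run of composites following a prime `p ≤ N` has length `(1 + o(1)) log^2 N`, with Cramér's
constant `1`, in every residue class of primes.

Method: first moments for the upper bound; for the lower bound the second moment of the number of these primes, which is a sum over
pairs of primes `p, p + h` (counted with the correct constant in blocks for almost all `h`), weighted by the exponential of the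
singular series of `h`.
-/

set_option autoImplicit false

namespace Pool.Agent.Results.MP_3bc45c_nt.CompositesAfterPrimes

open Finset

/-- The perturbed intervals `s 0, ..., s (m - 1)`: `s j` is in the window `(b j, b j + q]` and `s j ≡ j` modulo `M`. -/
def intervals (m M q : ℕ) (b : ℕ → ℕ) : Finset (Fin m → ℕ) :=
  Fintype.piFinset fun j : Fin m => (Ioc (b j) (b j + q)).filter fun v => v ≡ j [MOD M]

open Classical in
/-- The number of the primes `p ≤ N`, `p ≡ r` modulo `M`, for which none of `p + s j`, `j < k`, is a prime. -/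
noncomputable def followed {m : ℕ} (N M r : ℕ) (s : Fin m → ℕ) (k : ℕ) : ℕ :=
  ((Icc 1 N).filter fun p => p.Prime ∧ p ≡ r [MOD M] ∧ ∀ j : Fin m, j.val < k → ¬ (p + s j).Prime).card

/-- What holds for almost all perturbed intervals: the number of the primes which are followed by at least `k` composites, for all
`k` at once. -/
def Law {m : ℕ} (N M r : ℕ) (ε : ℝ) (s : Fin m → ℕ) : Prop := ∀ k ≤ m,
  (followed N M r s k : ℝ) ≤ (N : ℝ) ^ (1 - k / Real.log N ^ 2 + ε) ∧
  ((k : ℝ) ≤ (1 - ε) * Real.log N ^ 2 → (N : ℝ) ^ (1 - k / Real.log N ^ 2 - ε) ≤ (followed N M r s k : ℝ))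

open Classical in
/-- Let `0 < ε ≤ 1`. There is `w₀` such that the following holds for all `T`, all `a`, all `w ≥ w₀` and every modulus `M` whose prime
divisors are exactly the primes up to `w`. For all large `N`, all `q` with `N / log^a N ≤ q ≤ N`, all `m`, all `b j ≤ T N` and every
residue `r` coprime to `M`: for all but a proportion of at most `ε` of the vectors `s` of numbers `s j ≡ j` modulo `M` in the windows
`(b j, b j + q]`, `j < m`, and for ALL `k ≤ m`, the number of the primes `p ≤ N`, `p ≡ r` modulo `M`, for which none of the numbers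
`p + s j`, `j < k`, is a prime is at most `N^(1 - k / log^2 N + ε)`, and at least `N^(1 - k / log^2 N - ε)` if
`k ≤ (1 - ε) log^2 N`. In particular there is no such prime `p` if `k > (1 + ε) log^2 N`. -/
theorem result (ε : ℝ) (hε : 0 < ε) (hε1 : ε ≤ 1) : ∃ w₀ : ℕ, ∀ T a w : ℕ, w₀ ≤ w → ∀ M : ℕ, 1 ≤ M →
    (∀ p : ℕ, p.Prime → (p ∣ M ↔ p ≤ w)) → ∃ N₀ : ℕ, ∀ N : ℕ, N₀ ≤ N → ∀ q : ℕ, (N : ℝ) ≤ q * Real.log N ^ a → q ≤ N →
    ∀ (m : ℕ) (b : ℕ → ℕ), (∀ j, b j ≤ T * N) → ∀ r : ℕ, r.Coprime M →
      (((intervals m M q b).filter fun s => ¬ Law N M r ε s).card : ℝ) ≤ ε * (intervals m M q b).card := by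
  obtain ⟨w₀, hw₀⟩ := Pool.Agent.Run7.h931.PS.all_k ε hε hε1
  refine ⟨max w₀ 2, fun T a w hw M hM1 hM => ?_⟩
  have hw2 : 2 ≤ w := (le_max_right _ _).trans hw
  have hM2 : 2 ≤ M := Nat.le_of_dvd (by omega) ((hM 2 Nat.prime_two).2 hw2)
  obtain ⟨N₀, hN₀⟩ := Filter.eventually_atTop.1 ((hw₀ T a w ((le_max_left _ _).trans hw) M hM2 hM).and
    (Pool.Agent.Run7.h931.RS.ev_log 1))
  refine ⟨N₀, fun N hN q hq hqN m b hb r hr => ?_⟩
  obtain ⟨g1, g2⟩ := hN₀ N hN
  have hL0 : 0 < Real.log (N : ℝ) := by linarith
  have hmod : r % M ≡ r [MOD M] := Nat.mod_modEq _ _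
  have hr' : (r % M).Coprime M := by
    rw [Nat.coprime_iff_gcd_eq_one] at hr ⊢
    rw [hmod.gcd_eq]
    exact hr
  have k1 := g1 q hq hqN m (fun j => j) b hb (fun j _ => rfl) (r % M) (Nat.mod_lt _ (by omega)) hr'
  have hcard : ((intervals m M q b).card : ℝ) = Pool.Agent.Run7.h931.GB.Qt M q (fun j : Fin m => (j : ℕ)) (fun j : Fin m => b j) :=
    Pool.Agent.Run7.h931.GB.Om_card M q (fun j : Fin m => (j : ℕ)) (fun j : Fin m => b j)
  rw [hcard]
  refine le_trans ?_ k1
  apply Nat.cast_le.2
  apply card_le_card
  intro s hs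
  have hs1 := Finset.mem_filter.1 hs
  refine Finset.mem_filter.2 ⟨hs1.1, fun h => hs1.2 ?_⟩
  intro k hk
  have h1 := h k hk
  have h2 : Pool.Agent.Run7.h931.PS.pf N M (r % M) s k = followed N M r s k := by
    unfold Pool.Agent.Run7.h931.PS.pf followed
    congr 1
    apply filter_congr
    intro p _
    apply and_congr Iff.rfl
    apply and_congr _ Iff.rfl
    exact ⟨fun h => h.trans hmod, fun h => h.trans hmod.symm⟩
  rw [h2] at h1
  refine ⟨h1.2, fun h3 => h1.1 ?_⟩
  rw [div_le_iff₀ (by positivity)]
  exact h3

end Pool.Agent.Results.MP_3bc45c_nt.CompositesAfterPrimes
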