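import Pool.Agent.Run7.h52.M7
import Pool.Agent.Run7.h52.M9

set_option autoImplicit false

namespace Pool.Agent.Results.MP_3bc45c_nt.ExponentTwoBarrier

open Run7.h52.SW

theorem result :
    (∀ δ : ℝ, 0 < δ → ∃ X₀ : ℝ, ∀ X : ℝ, X₀ ≤ X → ∀ y Y : ℕ,
      (Real.log X) ^ (1 + δ) ≤ y → y ≤ Y → ∀ (x : ℤ) (H : Finset ℤ), H ⊆ Finset.Ioc x (x + Y) →
      ∀ P P₀ : Finset ℕ, (∀ p ∈ P, p.Prime ∧ y < p) → (∀ p ∈ P₀, p.Prime ∧ p ∉ P) →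
      ∀ M : ℕ, 0 < M → (∀ p ∈ P ∪ P₀, p ∣ M) → ∀ w : ℤ → ℝ, SquareWeight X M w →
      |∑ n ∈ Finset.range M, w n * (((survivors (P ∪ P₀) H n).card : ℝ)
          - (∏ p ∈ P, (1 - 1 / (p : ℝ))) * ((survivors P₀ H n).card : ℝ))|
        ≤ (∏ p ∈ P, (1 - 1 / (p : ℝ))) * ((Real.log X) ^ (-(δ / 3)) * Y) *
          ∑ n ∈ Finset.range M, w n) ∧
    (∀ A κ : ℝ, 2 < A → 0 < κ → ∃ X₀ : ℝ, ∀ X : ℝ, X₀ ≤ X → ∀ Y : ℕ,
      (Real.log X) ^ A ≤ Y → ∀ z M : ℕ, 0 < M →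
      (∀ p ∈ (Finset.Icc 1 z).filter Nat.Prime, p ∣ M) →
      ∀ w : ℤ → ℝ, SquareWeight X M w → ∀ x : ℤ,
      |∑ n ∈ Finset.range M, w n *
          ((survivors ((Finset.Icc 1 z).filter Nat.Prime) (Finset.Ioc x (x + Y)) n).card : ℝ)
          - W z * Y * ∑ n ∈ Finset.range M, w n|
        ≤ (2 * Real.exp Real.eulerMascheroniConstant / Real.Gamma (A + 1) + κ) * (W z * Y) *
          ∑ n ∈ Finset.range M, w n ∧
      (A ≤ 4 → (2 * Real.exp Real.eulerMascheroniConstant * Real.log (A - 1) / A - κ) * (W z * Y) *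
          ∑ n ∈ Finset.range M, w n
        ≤ ∑ n ∈ Finset.range M, w n *
          ((survivors ((Finset.Icc 1 z).filter Nat.Prime) (Finset.Ioc x (x + Y)) n).card : ℝ))) ∧
    (∀ θ A κ : ℝ, 0 < θ → θ < 1 → 2 < A → 0 < κ → ∃ c : ℝ, 0 < c ∧ ∃ T : ℝ, ∀ N : ℕ, T ≤ N → ∀ Y z : ℕ,
      (Real.log N) ^ A ≤ Y → (z : ℝ) ≤ (N : ℝ) ^ c →
      ∀ (M : ℕ) (w : ℤ → ℝ), SquareWeight ((N : ℝ) ^ θ) M w → ∀ x : ℤ,
      ∑ n ∈ (Finset.Ioc x (x + N)).filter (fun n =>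
          (2 * Real.exp Real.eulerMascheroniConstant / Real.Gamma (A + 1) + κ) * (W z * Y) <
            |((survivors ((Finset.Icc 1 z).filter Nat.Prime) (Finset.Ioc (0 : ℤ) Y) n).card : ℝ) - W z * Y|), w n
        ≤ κ * ∑ n ∈ Finset.Ioc x (x + N), w n ∧
      (A ≤ 4 → ∑ n ∈ (Finset.Ioc x (x + N)).filter (fun n =>
          ((survivors ((Finset.Icc 1 z).filter Nat.Prime) (Finset.Ioc (0 : ℤ) Y) n).card : ℝ) <
            (2 * Real.exp Real.eulerMascheroniConstant * Real.log (A - 1) / A - κ) * (W z * Y)), w n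
        ≤ κ * ∑ n ∈ Finset.Ioc x (x + N), w n)) :=
  ⟨Run7.h52.AsmW.mainW,
    fun A κ hA hκ => by
      obtain ⟨X₀, H⟩ := Run7.h52.M7.meanM hA hκ
      refine ⟨X₀, fun X hX Y hY z M hM hP w hw x => ?_⟩
      obtain ⟨h1, h2, _⟩ := H X hX Y hY z M hM hP w hw x
      exact ⟨h1, h2⟩,
    fun _ _ _ h0 h1 hA hκ => Run7.h52.M9.realS h0 h1 hA hκ⟩

end Pool.Agent.Results.MP_3bc45c_nt.ExponentTwoBarrier
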