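import Pool.Agent.Run7.h52.AsmA2

set_option autoImplicit false

namespace Pool.Agent.Results.MP_3bc45c_nt.LimitOfSquareSieve

open Run7.h52.SW

theorem result : ∀ ε : ℝ, 0 < ε → ∃ T : ℝ, ∀ (y : ℕ) (X : ℝ), T ≤ y →
    T * Real.log y ≤ Real.log X →
    ∀ P : Finset ℕ, (∀ p ∈ P, p.Prime ∧ y < p) →
    ∀ H : Finset ℤ, (∀ p ∈ P, ∀ h ∈ H, ∀ h' ∈ H, (p : ℤ) ∣ h - h' → h = h') →
    ∀ M : ℕ, 0 < M → (∀ p ∈ P, p ∣ M) → ∀ w : ℤ → ℝ, SquareWeight X M w →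
    (max 0 (1 - Real.sqrt ((1 / 2) * W y * Real.log X * Real.log (Real.log X / Real.log y)
        / H.card) - ε)) ^ 2 * (∏ p ∈ P, (1 - 1 / (p : ℝ))) * H.card *
      ∑ n ∈ Finset.range M, w n
      ≤ ∑ n ∈ Finset.range M, w n * ((survivors P H n).card : ℝ) :=
  Run7.h52.AsmA.mainA

end Pool.Agent.Results.MP_3bc45c_nt.LimitOfSquareSieve
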